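import Pool.Agent.J6H69.GB.AllS

/-!
# Greenberg's conjecture in a fixed weight: almost all primes `p`, all levels with wild primes in a finite set

The even characters `θ` modulo `p N` are the `ψ ω^m` with a primitive character `ψ` of conductor dividing `N` and
`ψ(-1) = (-1)^m`. We fix the weight `m ≥ 1` and let `p` and `N` vary.

Let `S` be a finite set of primes, and `N₁`, `n` any integers. For all primes `p` with `ℓ^(n+1) ∤ p^(ℓ(ℓ-1)) - 1` for
all `ℓ ∈ S`, except finitely many, and for all `N` dividing `N₁ (∏_{ℓ ∈ S} ℓ)^K`, `K ≥ 0`, and all primitive `ψ`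
modulo `N`, the value

  `L_p(1 - m, θ) = - (1 - ψ(p) p^(m-1)) B_{m,ψ} / m`

is a unit at all places above `p`, except of course if `m = 1` and `ψ(p) = 1`, where it is zero. So the finite set of
exceptional primes depends only on `m`, `S`, `N₁`, `n`, and not on the level. Every prime `p` outside of `S` satisfies
the condition for some `n`; the density of the primes which do not satisfy it tends to zero for `n → ∞`.

Hence (known: `X_θ` is a quotient of a module with the `p`-adic `L`-function as characteristic ideal and without
finite submodules) `X_θ = 0` for all these `θ = ψ ω^m`.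

Proof. Induction on the number of elements of `S`; we may assume that for all `ℓ ∈ S` the power `ℓ^(a ℓ)` of `ℓ` in the
conductor is large, and that the part `N₂` of the conductor outside of `S` is fixed.

1. Take `q = p^g` such that `v_ℓ(q - 1) = e` for all `ℓ ∈ S`, with `e` independent of `p`. If the value is not a unit,
then for a character `χ = χ₁ χ₂` in characteristic `p` the sum `∑ χ(x) F(x / N)` is zero, with a Bernoulli polynomial
`F` of degree `m`. By the trace to the field with `q` elements and a change of variables the same holds, for all `c`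
prime to `S`, for the sum over the `x` with `x^(q-1) = c^(q-1)` modulo `M = ∏ ℓ^(a ℓ)`, that is over the union of the
classes of the `η c` modulo `D = ∏ ℓ^(a ℓ - e)`, where `η` runs over the families of Teichmüller roots of unity
(`η = 1, -1` if `ℓ = 2`) for the `ℓ ∈ S`.

2. The sum over the class of an integer `y` modulo `D` is, apart from the factor `χ₂(y)`, given by a polynomial in `y`
of degree `m` as long as `y` stays between two multiples of `D` and in a fixed class modulo the fixed moduli. If the
integers `z_η` and `δ_η` are in the classes of `η z_1`, `η δ_1`, and in the progressions `z_η - j δ_η`, `0 ≤ j ≤ m + 1`,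
only the ones of `η = 1` and `η = -1` cross a multiple of `D`, then in the `(m+1)`-st difference of the relations 1 only
the jump `F(1 + x) - F(x) = m! m x^(m-1)` remains (twice, by the symmetry `x ↦ -x`), which is not zero in characteristic
`p`: a contradiction.

3. Such `z_η`, `δ_η` exist if the `a ℓ` are large. For every `ℓ`, the pigeonhole principle gives a small nonzero
sequence `w_i = η^i w_0` modulo `ℓ^(a ℓ)` (`η` a primitive root of unity of order `L = ℓ - 1`) which satisfies the linear
recurrence of the cyclotomic polynomial `Φ_L`; since a determinant is not zero, its multiples by the elements of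
`ℤ[X] / (Φ_L)` come near to every real solution of the recurrence. The sums of these solutions over the `ℓ ∈ S` have a
generic point in which only the coordinates of `η = 1, -1` are near to multiples of `D`.

4. The finitely many remaining `ψ` (`S` empty): `B_{m,ψ}` is not zero, by the nonvanishing of `L(m, ψ⁻¹)` and of the
Gauss sum, so it is a unit at almost all `p`; in the weight one we use the value of the sine zeta function at one.
-/

set_option autoImplicit false

namespace Pool.Agent.Results.MP_c2a07f_nt.AlmostAllPrimes

/-- The generalized Bernoulli number `B_{m,ψ} = N^(m-1) ∑_{a=1}^N ψ(a) B_m(a/N)`. -/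
noncomputable def genBernoulli (m : ℕ) {N : ℕ} (ψ : DirichletCharacter ℂ N) : ℂ :=
  (N : ℂ) ^ (m - 1) * ∑ a ∈ Finset.Icc 1 N, ψ (a : ZMod N) *
    (((Polynomial.bernoulli m).eval ((a : ℚ) / N) : ℚ) : ℂ)

/-- `(1 - ψ(p) p^(m-1)) B_{m,ψ} / m`, the value at `1 - m` of the `L`-function of `ψ` without Euler factor
at `p` (up to the sign). -/
noncomputable def lValue (p m : ℕ) {N : ℕ} (ψ : DirichletCharacter ℂ N) : ℂ :=
  (1 - ψ (p : ZMod N) * (p : ℂ) ^ (m - 1)) * genBernoulli m ψ / m

/-- `z` is a unit at all places above `p`: it is not zero, and for some integer `c` prime to `p` the numbers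
`c z` and `c / z` are algebraic integers. -/
def IsUnitAt (p : ℕ) (z : ℂ) : Prop :=
  z ≠ 0 ∧ ∃ c : ℤ, IsCoprime (p : ℤ) c ∧ IsIntegral ℤ ((c : ℂ) * z) ∧ IsIntegral ℤ ((c : ℂ) * z⁻¹)

theorem result (S : Finset ℕ) (hS : ∀ ℓ ∈ S, ℓ.Prime) (N₁ m n : ℕ) (hN₁ : 1 ≤ N₁) (hm : 1 ≤ m) :
    ∃ P : ℕ, ∀ p : ℕ, p.Prime → P < p → (∀ ℓ ∈ S, ¬ ℓ ^ (n + 1) ∣ p ^ (ℓ * (ℓ - 1)) - 1) →
      ∀ K N : ℕ, N ∣ N₁ * (∏ ℓ ∈ S, ℓ) ^ K → ∀ ψ : DirichletCharacter ℂ N, ψ.IsPrimitive →
        ψ (-1) = (-1) ^ m → ¬ (m = 1 ∧ ψ (p : ZMod N) = 1) → IsUnitAt p (lValue p m ψ) :=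
  Pool.Agent.J6H69.GB.allS n hm S hS N₁ (Nat.one_le_iff_ne_zero.1 hN₁)

end Pool.Agent.Results.MP_c2a07f_nt.AlmostAllPrimes
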