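import Pool.Agent.J6H1.GX.GenFive

/-!
# Greenberg's conjecture for `p = 5` and all `N = 2^A 3^B`

For `p = 5` and `N = 2^A 3^B` the even characters `θ` modulo `5 N` are the `ψ ω^m` with a primitive character `ψ`
modulo `2^a 3^b`, `a ≤ A`, `b ≤ B`, `1 ≤ m ≤ 4`, `ψ(-1) = (-1)^m`. We show that the value

  `L_5(1 - m, θ) = - (1 - ψ(5) 5^(m-1)) B_{m,ψ} / m`

of the `5`-adic `L`-function is a unit at all places above `5` for all of them, with the exception of the trivial
character and of the following five pairs (conductor of `ψ`, `m`):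

  `(4, 1)`, `(24, 1)`, `(16, 2)`, `(48, 3)`, `(36, 4)`.

So for all other `θ` the `5`-adic `L`-function is a unit and `X_θ = 0` (known: `X_θ` is a quotient of a module with
this characteristic ideal and without finite submodules). For `θ = 1` and for the five exceptional pairs one has
`X_θ = 0` as well, since `θ` is not trivial on the decomposition group at `5` (or `θ = 1`) and the class number of its
field is prime to `5`: the fields are real and cyclic of degree `4` or `6`, in `ℚ(ζ_n)⁺` with `n = 20, 120, 80, 240,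
36`, which have class number one (known: van der Linden, Miller). Hence `X⁺ = 0` for `p = 5` and all `N = 2^A 3^B`.
The powers of `3` alone are the start result `FiveAndPowersOfThree`.

Proof. If `2^a` or `3^b` is large, see `LevelsTwoAndThreeEffective`. The remaining conductors are settled by relations
between the sums over one class (`a ≤ 5` or `b ≤ 1`) or over two classes (`a ≥ 6`, `b ≥ 2`), which are sums of `24`-th
roots of unity in the field with `25` elements with explicit coefficients, evaluated in the kernel.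
-/

set_option autoImplicit false

namespace Pool.Agent.Results.MP_c2a07f_nt.FiveAndThreeSmoothLevels

/-- The generalized Bernoulli number `B_{m,ψ} = N^(m-1) ∑_{a=1}^N ψ(a) B_m(a/N)`. -/
noncomputable def genBernoulli (m : ℕ) {N : ℕ} (ψ : DirichletCharacter ℂ N) : ℂ :=
  (N : ℂ) ^ (m - 1) * ∑ a ∈ Finset.Icc 1 N, ψ (a : ZMod N) *
    (((Polynomial.bernoulli m).eval ((a : ℚ) / N) : ℚ) : ℂ)

/-- `(1 - ψ(p) p^(m-1)) B_{m,ψ} / m`, the value at `1 - m` of the `L`-function of `ψ` without Euler factor
at `p` (up to the sign). -/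
noncomputable def lValue (p m : ℕ) {N : ℕ} (ψ : DirichletCharacter ℂ N) : ℂ :=
  (1 - ψ (p : ZMod N) * (p : ℂ) ^ (m - 1)) * genBernoulli m ψ / m

/-- `z` is a unit at all places above `p`: it is not zero, and for some integer `c` prime to `p` the numbers
`c z` and `c / z` are algebraic integers. -/
def IsUnitAt (p : ℕ) (z : ℂ) : Prop :=
  z ≠ 0 ∧ ∃ c : ℤ, IsCoprime (p : ℤ) c ∧ IsIntegral ℤ ((c : ℂ) * z) ∧ IsIntegral ℤ ((c : ℂ) * z⁻¹)

theorem result (a b m : ℕ) (hm1 : 1 ≤ m) (hm4 : m ≤ 4)
    (hex : (a, b, m) ∉ [(0, 0, 4), (2, 0, 1), (3, 1, 1), (4, 0, 2), (4, 1, 3), (2, 2, 4)])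
    (ψ : DirichletCharacter ℂ (2 ^ a * 3 ^ b)) (hprim : ψ.IsPrimitive) (hpar : ψ (-1) = (-1) ^ m) :
    IsUnitAt 5 (lValue 5 m ψ) := by
  rw [DirichletCharacter.isPrimitive_def] at hprim
  simp only [List.mem_cons, Prod.mk.injEq, List.not_mem_nil, or_false, not_or] at hex
  exact Pool.Agent.J6H1.GX.five_aux hm1 hm4 hex (2 ^ a * 3 ^ b) (mul_comm _ _) ψ hprim hpar

end Pool.Agent.Results.MP_c2a07f_nt.FiveAndThreeSmoothLevels
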