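import Pool.Agent.J6H1.GX.Gen

/-!
# Greenberg's conjecture for the levels `N = 2^a 3^b`: an effective bound for the conductors

Let `p ≥ 5` be a prime, `2^n` and `3^r` the exact powers of `2` and `3` dividing `p^2 - 1`. For `N = 2^A 3^B` the even
characters `θ` modulo `p N` are the `ψ ω^m` with a primitive character `ψ` modulo `2^a 3^b`, `a ≤ A`, `b ≤ B`,
`1 ≤ m ≤ p - 1`, `ψ(-1) = (-1)^m`. We show: if

  `(p - 1) 4^n 9^r ≤ 2^a`  or  `(p - 1) 4^n 9^r ≤ 3^b`

then `L_p(1 - m, θ) = - (1 - ψ(p) p^(m-1)) B_{m,ψ} / m` is a unit at all places above `p`. So the `p`-adic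
`L`-function of `θ` is a unit, and `X_θ = 0` (known: `X_θ` is a quotient of a module with this characteristic ideal
and without finite submodules). As `2^n 3^r` divides `p^2 - 1`, it is enough that `p^5 ≤ 2^a` or `p^5 ≤ 3^b`.
Hence for a fixed `p` and all the infinitely many levels `N = 2^A 3^B` together, `X⁺` is the sum of the `X_θ` for the
finitely many `θ` with `2^a, 3^b < p^5`, which reduces Greenberg's conjecture for all these `N` to a finite and
explicit set of characters. Each of the two bounds is uniform in the other exponent.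

Proof. Modulo a place above `p`, the sum over `x < 2^a 3^b` is projected to classes: first to `x = c` modulo
`2^(a-n)` (the kernel of `χ₂^(q-1)` is `± 1` there), then to `x = ± y` modulo `3^(b-r)`. What remains is a relation
`ξ^e P₁(y) + χ₃(-1) η^(-κ) P₂(z) = 0` between two nonzero polynomials of degree `m - 1`, for all `y, z` with
`y - z = 2^(a-n) e`, `y + z = 3^(b-r) κ` in a box. If `2^a` is large we fix `e` and let `κ` vary, if `3^b` is large we
fix `κ` and let `e` vary; the twists `η^κ`, `ξ^e` are periodic, so both polynomials vanish, a contradiction.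
-/

set_option autoImplicit false

namespace Pool.Agent.Results.MP_c2a07f_nt.LevelsTwoAndThreeEffective

/-- The generalized Bernoulli number `B_{m,ψ} = N^(m-1) ∑_{a=1}^N ψ(a) B_m(a/N)`. -/
noncomputable def genBernoulli (m : ℕ) {N : ℕ} (ψ : DirichletCharacter ℂ N) : ℂ :=
  (N : ℂ) ^ (m - 1) * ∑ a ∈ Finset.Icc 1 N, ψ (a : ZMod N) *
    (((Polynomial.bernoulli m).eval ((a : ℚ) / N) : ℚ) : ℂ)

/-- `(1 - ψ(p) p^(m-1)) B_{m,ψ} / m`, the value at `1 - m` of the `L`-function of `ψ` without Euler factor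
at `p` (up to the sign). -/
noncomputable def lValue (p m : ℕ) {N : ℕ} (ψ : DirichletCharacter ℂ N) : ℂ :=
  (1 - ψ (p : ZMod N) * (p : ℂ) ^ (m - 1)) * genBernoulli m ψ / m

/-- `z` is a unit at all places above `p`: it is not zero, and for some integer `c` prime to `p` the numbers
`c z` and `c / z` are algebraic integers. -/
def IsUnitAt (p : ℕ) (z : ℂ) : Prop :=
  z ≠ 0 ∧ ∃ c : ℤ, IsCoprime (p : ℤ) c ∧ IsIntegral ℤ ((c : ℂ) * z) ∧ IsIntegral ℤ ((c : ℂ) * z⁻¹)

theorem result {p : ℕ} (hp : p.Prime) (h5 : 5 ≤ p) {n r : ℕ}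
    (hn : 2 ^ n ∣ p ^ 2 - 1) (hn' : ¬ 2 ^ (n + 1) ∣ p ^ 2 - 1)
    (hr : 3 ^ r ∣ p ^ 2 - 1) (hr' : ¬ 3 ^ (r + 1) ∣ p ^ 2 - 1) (a b : ℕ)
    (hsize : (p - 1) * 4 ^ n * 9 ^ r ≤ 2 ^ a ∨ (p - 1) * 4 ^ n * 9 ^ r ≤ 3 ^ b)
    (m : ℕ) (hm1 : 1 ≤ m) (hmp : m ≤ p - 1)
    (ψ : DirichletCharacter ℂ (2 ^ a * 3 ^ b)) (hprim : ψ.IsPrimitive) (hpar : ψ (-1) = (-1) ^ m) :
    IsUnitAt p (lValue p m ψ) := by
  rw [DirichletCharacter.isPrimitive_def] at hprim
  exact Pool.Agent.J6H1.GX.gen_aux hp h5 hn hn' hr hr' hm1 hmp hsize (2 ^ a * 3 ^ b) (mul_comm _ _) ψ hprim hpar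

end Pool.Agent.Results.MP_c2a07f_nt.LevelsTwoAndThreeEffective
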