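import Pool.Agent.J6H78.GR.All

/-!
# Greenberg's conjecture for all `N = 3^K` and the primes `p ≡ 2, 5` modulo `9` below `400`

Let `p ≡ 2, 5` modulo `9` be a prime, `5 < p < 400`. For `N = 3^K` (`K ≥ 0`) the even characters `θ` modulo `p N`
are the `ψ ω^m` with a primitive character `ψ` modulo `3^k`, `k ≤ K`, `1 ≤ m ≤ p - 1`, `ψ(-1) = (-1)^m`. We show that

  `L_p(1 - m, θ) = - (1 - ψ(p) p^(m-1)) B_{m,ψ} / m`

is a unit at all places above `p` for all these characters with `k ≥ 2`, and also for `k = 0, 1` apart from the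
trivial character, the twelve classical irregular pairs (`k = 0`) and twelve pairs `(p, m)` for the conductor `3`
(which concern nine of the primes).

So the `p`-adic `L`-functions of all the other `θ` are units, and `X_θ = 0` for them (known: see the support statement
in the problem file and the first hand-in `FiveAndPowersOfThree`). For the eighteen primes `11, 29, 41, 59, 83, 101, 131, 137, 149, 167, 173, 191, 227, 239, 293, 311, 383,
389`, which do not occur in the list for the conductor `3`, one gets `X⁺ = 0` for all `N = 3^K` (the level `N = 1`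
is Vandiver's conjecture for `p`, which is known).

Proof. `Pow`: the values of `m! (B_m(x) - B_m)` at integers are power sums. `Small`: as `p² ≢ 1` modulo `9` and
`p ≡ 2` modulo `3`, the vanishing of the character sum modulo `p` forces, in each class `b` modulo `3^(K-1)`, three
power sums to be equal modulo `p`. `Chk`, `Tab*`: for `3^K < 9 m` this is excluded by a calculation with one of the
classes `1, 4, 7`; the case `9 m ≤ 3^K` was known. `Low`: the conductors `3` and `1`.
-/

set_option autoImplicit false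

namespace Pool.Agent.Results.MP_c2a07f_nt.PowersOfThreeManyPrimes

/-- The generalized Bernoulli number `B_{m,ψ} = N^(m-1) ∑_{a=1}^N ψ(a) B_m(a/N)`. -/
noncomputable def genBernoulli (m : ℕ) {N : ℕ} (ψ : DirichletCharacter ℂ N) : ℂ :=
  (N : ℂ) ^ (m - 1) * ∑ a ∈ Finset.Icc 1 N, ψ (a : ZMod N) *
    (((Polynomial.bernoulli m).eval ((a : ℚ) / N) : ℚ) : ℂ)

/-- `(1 - ψ(p) p^(m-1)) B_{m,ψ} / m`, the value at `1 - m` of the `L`-function of `ψ` without Euler factor
at `p` (up to the sign). -/
noncomputable def lValue (p m : ℕ) {N : ℕ} (ψ : DirichletCharacter ℂ N) : ℂ :=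
  (1 - ψ (p : ZMod N) * (p : ℂ) ^ (m - 1)) * genBernoulli m ψ / m

/-- `z` is a unit at all places above `p`: it is not zero, and for some integer `c` prime to `p` the numbers
`c z` and `c / z` are algebraic integers. -/
def IsUnitAt (p : ℕ) (z : ℂ) : Prop :=
  z ≠ 0 ∧ ∃ c : ℤ, IsCoprime (p : ℤ) c ∧ IsIntegral ℤ ((c : ℂ) * z) ∧ IsIntegral ℤ ((c : ℂ) * z⁻¹)

/-- The irregular pairs `(p, m)` (`p` divides `B_m`) of the primes in question. -/
def irregularPairs : List (ℕ × ℕ) := [(59, 44), (101, 68), (131, 22), (149, 130), (257, 164), (263, 100),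
  (293, 156), (311, 292), (347, 280), (353, 186), (353, 300), (389, 200)]

/-- The pairs `(p, m)` left out for the conductor `3`. -/
def pairsThree : List (ℕ × ℕ) := [(23, 17), (47, 13), (113, 55), (257, 101), (263, 81), (281, 131), (281, 261),
  (317, 101), (317, 217), (317, 265), (347, 295), (353, 291)]

theorem result (p : ℕ) (hp : p.Prime) (hp5 : 5 < p) (hp400 : p < 400) (hp9 : p % 9 = 2 ∨ p % 9 = 5)
    (K m : ℕ) (hm1 : 1 ≤ m) (hmp : m ≤ p - 1)
    (hK0 : K = 0 → m ≠ p - 1 ∧ (p, m) ∉ irregularPairs) (hK1 : K = 1 → (p, m) ∉ pairsThree)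
    (ψ : DirichletCharacter ℂ (3 ^ K)) (hprim : ψ.IsPrimitive) (hpar : ψ (-1) = (-1) ^ m) :
    IsUnitAt p (lValue p m ψ) := by
  exact Pool.Agent.J6H78.GR.all hp hp5 hp400 hp9 hm1 hmp ψ hprim hpar hK0 hK1

end Pool.Agent.Results.MP_c2a07f_nt.PowersOfThreeManyPrimes
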